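import Pool.Agent.W763.PB.Stm

/-!
# The unitary `W = ⊕ U_N`
-/

set_option autoImplicit false
open MeasureTheory Filter Topology
open scoped InnerProductSpace BoundedContinuousFunction

namespace Pool.Agent.W428.PB

open Pool.Agent.W763.PB

/-- the direct sum of contractions -/
noncomputable def op {H : ℕ → Type} [∀ N, NormedAddCommGroup (H N)] [∀ N, InnerProductSpace ℂ (H N)]
    (U : ∀ N, H N ≃ₗᵢ[ℂ] H N) : lp H 2 →L[ℂ] lp H 2 :=
  lp.mapCLM 2 (fun N => ((U N).toContinuousLinearEquiv : H N →L[ℂ] H N)) zero_le_one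
    (fun N => ContinuousLinearMap.opNorm_le_bound _ zero_le_one fun x => by simp)

theorem op_apply {H : ℕ → Type} [∀ N, NormedAddCommGroup (H N)] [∀ N, InnerProductSpace ℂ (H N)]
    (U : ∀ N, H N ≃ₗᵢ[ℂ] H N) (x : lp H 2) (N : ℕ) :
    (op U x : ∀ N, H N) N = U N ((x : ∀ N, H N) N) := rfl

theorem fb : S_Fb := by
  intro H _ _ _ U hU
  have hext : ∀ x y : lp H 2, (∀ N, (x : ∀ N, H N) N = (y : ∀ N, H N) N) → x = y := by
    intro x y h
    ext N
    exact h N
  have h1 : op (fun N => (U N).symm) = ContinuousLinearMap.adjoint (op U) := by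
    rw [ContinuousLinearMap.eq_adjoint_iff]
    intro x y
    refine (lp.hasSum_inner _ _).unique ?_
    have h2 := lp.hasSum_inner (𝕜 := ℂ) x (op U y)
    refine h2.congr_fun ?_ |> fun h => h
    intro N
    rw [op_apply, op_apply]
    conv_rhs => rw [← (U N).apply_symm_apply ((x : ∀ N, H N) N)]
    rw [(U N).inner_map_map]
  have h3 : star (op U) = op (fun N => (U N).symm) := h1.symm
  refine ⟨op U, op_apply U, ?_, ?_⟩
  · rw [Unitary.mem_iff, h3]
    constructor
    · refine ContinuousLinearMap.ext fun x => hext _ _ fun N => ?_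
      change (op (fun N => (U N).symm) (op U x) : ∀ N, H N) N = _
      rw [op_apply, op_apply]
      exact (U N).symm_apply_apply _
    · refine ContinuousLinearMap.ext fun x => hext _ _ fun N => ?_
      change (op U (op (fun N => (U N).symm) x) : ∀ N, H N) N = _
      rw [op_apply, op_apply]
      exact (U N).apply_symm_apply _
  · intro v hv
    have hpow : ∀ (n : ℕ) (x : lp H 2) (N : ℕ),
        ((op U ^ n) x : ∀ N, H N) N = (U N ^ n) ((x : ∀ N, H N) N) := by
      intro n
      induction n with
      | zero => intro x N; rfl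
      | succ n ih =>
        intro x N
        rw [pow_succ, pow_succ]
        change ((op U ^ n) (op U x) : ∀ N, H N) N = (U N ^ n) (U N ((x : ∀ N, H N) N))
        rw [ih, op_apply]
    apply hext
    intro N
    apply hU N
    intro z
    have h4 := hv (lp.single 2 N z)
    refine h4.congr fun n => ?_
    rw [lp.inner_single_left, hpow]

end Pool.Agent.W428.PB
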